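import Mathlib

set_option autoImplicit false

namespace Pool.Agent.Results.MP_e86906_an.Yes

open Set Filter Topology Function Metric Asymptotics

theorem ehr {M E : Type} [NormedAddCommGroup E] [NormedSpace ℂ E] {δ : M → E}
    (hd : Dense (Submodule.span ℂ (range δ) : Set E)) {T : E →L[ℂ] E} (hT : IsCompactOperator T) {η : ℝ} (η0 : 0 < η) :
    ∃ (S : Finset M) (K : ℝ), 0 ≤ K ∧ ∀ φ : E →L[ℂ] ℂ, ‖φ ∘L T‖ ≤ η * ‖φ‖ + K * ∑ s ∈ S, ‖φ (δ s)‖ := by
  classical
  have k : ∀ γ ∈ Submodule.span ℂ (range δ), ∃ (S : Finset M) (K : ℝ), 0 ≤ K ∧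
      ∀ φ : E →L[ℂ] ℂ, ‖φ γ‖ ≤ K * ∑ s ∈ S, ‖φ (δ s)‖ := fun γ h => by
    obtain ⟨c, rfl⟩ := Finsupp.mem_span_range_iff_exists_finsupp.1 h
    refine ⟨c.support, ∑ s ∈ c.support, ‖c s‖, by positivity, fun φ => ?_⟩
    rw [Finsupp.sum, map_sum, Finset.sum_mul]
    refine norm_sum_le_of_le _ fun s hs => ?_
    rw [map_smul, norm_smul]
    exact mul_le_mul_of_nonneg_left (Finset.single_le_sum (f := fun s => ‖φ (δ s)‖) (by simp) hs) (norm_nonneg _)
  choose! S K k0 k using k
  obtain ⟨t, t1, t2, t3⟩ := (hT.isCompact_closure_image_closedBall (f := T.toLinearMap) 1).elim_finite_subcover_image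
    (fun γ (_ : γ ∈ Submodule.span ℂ (range δ)) => isOpen_ball (x := γ) (ε := η)) fun x _ => by
      simpa using mem_closure_iff.1 (hd x) η η0
  lift t to Finset E using t2
  have K0 : 0 ≤ ∑ γ ∈ t, K γ := Finset.sum_nonneg fun γ h => k0 γ (t1 h)
  refine ⟨t.biUnion S, _, K0, fun φ => ContinuousLinearMap.opNorm_le_of_unit_norm (by positivity) fun x hx => ?_⟩
  obtain ⟨γ, g1, g2⟩ := mem_iUnion₂.1 (t3 (subset_closure ⟨x, by simp [hx], rfl⟩))
  rw [ContinuousLinearMap.comp_apply, ← sub_add_cancel (T x) γ, map_add]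
  refine norm_add_le_of_le ((φ.le_opNorm _).trans ?_) ((k γ (t1 g1) φ).trans ?_)
  · rw [mul_comm]
    exact mul_le_mul_of_nonneg_right (mem_ball_iff_norm.1 g2).le (norm_nonneg _)
  exact mul_le_mul (Finset.single_le_sum (fun γ h => k0 γ (t1 h)) g1) (Finset.sum_le_sum_of_subset_of_nonneg
    (Finset.subset_biUnion_of_mem S g1) fun _ _ _ => norm_nonneg _) (by positivity) K0

theorem result (M : Type) [MetricSpace M] [CompleteSpace M] (o : M) (f : M → M) (L : NNReal)
    (hf : LipschitzWith L f) (f0 : f o = o) (E : Type) [NormedAddCommGroup E] [NormedSpace ℂ E] [CompleteSpace E]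
    (δ : M → E) (hi : Isometry δ) (δ0 : δ o = 0) (hd : Dense (Submodule.span ℂ (range δ) : Set E))
    (hu : ∀ g : M → ℂ, LipschitzWith 1 g → g o = 0 → ∃ φ : E →L[ℂ] ℂ, ‖φ‖ ≤ 1 ∧ ∀ x, φ (δ x) = g x)
    (T : E →L[ℂ] E) (hT : ∀ x, T (δ x) = δ (f x)) (hc : IsCompactOperator T) :
    {n | 0 < n ∧ ∃ x ≠ o, minimalPeriod f x = n}.Finite ∧
      spectrum ℂ T \ {0} = ⋃ n ∈ {n | 0 < n ∧ ∃ x ≠ o, minimalPeriod f x = n}, {z : ℂ | z ^ n = 1} := by
  have hr : ∀ g : M → ℝ, LipschitzWith 1 g → ∃ φ : E →L[ℂ] ℂ, ‖φ‖ ≤ 1 ∧ ∀ x, φ (δ x) = (g x - g o : ℝ) := fun g h =>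
    hu _ (by simpa only [add_zero, mul_one, comp_def] using Complex.isometry_ofReal.lipschitz.comp (h.sub (.const (g o)))) (by simp)
  have hk : ∀ k x, (T ^ k) (δ x) = δ (f^[k] x) := fun k x => by
    induction k with
    | zero => rfl
    | succ k i => rw [pow_succ', iterate_succ_apply', ← hT, ← i]; rfl
  have key : ∀ η > 0, ∃ (S : Finset M) (K : ℝ), 0 ≤ K ∧ ∀ g : M → ℝ, LipschitzWith 1 g → ∀ x y,
      g (f x) - g (f y) ≤ (η + K * ∑ s ∈ S, |g s - g o|) * dist x y := fun η η0 => by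
    obtain ⟨S, K, K0, h⟩ := ehr hd hc η0
    refine ⟨S, K, K0, fun g hg x y => ?_⟩
    obtain ⟨φ, φ1, φ2⟩ := hr g hg
    have := ((φ ∘L T).le_opNorm (δ x - δ y)).trans (mul_le_mul_of_nonneg_right (h φ) (norm_nonneg _))
    rw [← dist_eq_norm, hi.dist_eq] at this
    simp only [ContinuousLinearMap.comp_apply, map_sub, hT, φ2, ← Complex.ofReal_sub, Complex.norm_real,
      Real.norm_eq_abs, sub_sub_sub_cancel_right] at this
    nlinarith [le_abs_self (g (f x) - g (f y)), mul_le_mul_of_nonneg_left φ1 (mul_nonneg η0.le (dist_nonneg (x := x) (y := y)))]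
  have flat : ∀ η > 0, η ≤ 2⁻¹ → ∃ r > 0, ∀ k x y, dist x y < r → dist (f^[k] x) (f^[k] y) ≤ η ^ k * dist x y :=
    fun η η0 η1 => by
    obtain ⟨S, K, K0, h⟩ := key (η / 2) (by positivity)
    refine ⟨η / 2 / (K * S.card * L + 1), by positivity, fun k x y hr => ?_⟩
    induction k with
    | zero => simp
    | succ k i =>
      rw [iterate_succ_apply', iterate_succ_apply', pow_succ', mul_assoc]
      refine le_trans ?_ (mul_le_mul_of_nonneg_left i η0.le)
      replace hr := (i.trans (mul_le_of_le_one_left dist_nonneg (pow_le_one₀ η0.le (by linarith)))).trans_lt hr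
      generalize f^[k] x = x at hr ⊢
      generalize f^[k] y = y at hr ⊢
      have := h (fun z => min (dist (f x) (f y)) (dist z (f y))) ((LipschitzWith.dist_left _).const_min _) x y
      simp only [min_self, dist_self, min_eq_right dist_nonneg, sub_zero] at this
      refine this.trans (mul_le_mul_of_nonneg_right ?_ dist_nonneg)
      have := Finset.sum_le_card_nsmul S (fun s => |min (dist (f x) (f y)) (dist s (f y)) -
        min (dist (f x) (f y)) (dist o (f y))|) _ fun s _ => (abs_sub_le_of_nonneg_of_le (by positivity)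
          (min_le_left _ _) (by positivity) (min_le_left _ _)).trans (hf.dist_le_mul x y)
      rw [lt_div_iff₀ (by positivity)] at hr
      rw [nsmul_eq_mul] at this
      nlinarith [mul_le_mul_of_nonneg_left this K0, dist_nonneg (x := x) (y := y)]
  obtain ⟨R, hR⟩ : ∃ R, ∀ k x, dist (f^[k] x) o ≤ R + 2⁻¹ ^ k * dist x o := by
    obtain ⟨S, K, K0, h⟩ := key 2⁻¹ (by norm_num)
    have R0 : 0 ≤ ∑ s ∈ S, dist s o := by positivity
    refine ⟨2 * ∑ s ∈ S, dist s o, fun k x => ?_⟩
    induction k with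
    | zero => simpa
    | succ k i =>
      have := h (fun z => max (∑ s ∈ S, dist s o) (dist z o)) ((LipschitzWith.dist_left _).const_max _) (f^[k] x) o
      rw [Finset.sum_eq_zero (f := fun s => |_ - _|) fun s hs => by
        simp [R0, Finset.single_le_sum (f := (dist · o)) (by simp) hs]] at this
      simp only [f0, dist_self, max_eq_left R0] at this
      rw [iterate_succ_apply', pow_succ]
      linarith [le_max_right (∑ s ∈ S, dist s o) (dist (f (f^[k] x)) o)]
  have tb : ∀ (x : ℕ → M) (B : ℝ), (∀ k, dist (x k) o ≤ B) → ∀ r > 0, ∃ a b, a < b ∧ dist (f (x a)) (f (x b)) < r :=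
    fun x B h r r0 => by
    obtain ⟨y, -, u, u1, u2⟩ := (hc.isCompact_closure_image_closedBall (f := T.toLinearMap) B).tendsto_subseq
      (x := fun k => δ (f (x k))) fun k => subset_closure ⟨δ (x k), by simpa [← δ0, hi.dist_eq] using h k, hT _⟩
    obtain ⟨N, hN⟩ := cauchySeq_iff.1 u2.cauchySeq r r0
    exact ⟨_, _, u1 N.lt_succ_self, by simpa [hi.dist_eq] using hN N le_rfl (N + 1) (by simp)⟩
  have fin : (periodicPts f).Finite := by
    by_contra h
    obtain ⟨r, r0, hr⟩ := flat 2⁻¹ (by norm_num) le_rfl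
    let u := Set.Infinite.natEmbedding _ h
    have hf : ∀ k : ℕ, k ≠ 0 → (2⁻¹ : ℝ) ^ k ≤ 2⁻¹ := fun k hk => pow_le_of_le_one (by norm_num) (by norm_num) hk
    obtain ⟨a, b, ab, e⟩ := tb (fun k => u k) (2 * R) (fun k => by
      obtain ⟨n, n0, hn⟩ := (u k).2
      have := hR n (u k)
      rw [hn.eq] at this
      nlinarith [mul_le_mul_of_nonneg_right (hf n n0.ne') (dist_nonneg (x := (u k).1) (y := o))]) r r0
    obtain ⟨n, n0, hn⟩ := (u a).2
    obtain ⟨m, m0, hm⟩ := (u b).2
    have := hr (n * m) _ _ e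
    rw [(hn.apply.mul_const m).eq, (hm.apply.const_mul n).eq] at this
    refine ab.ne (u.injective (Subtype.ext (hn.eq_of_apply_eq hm n0 m0 (dist_le_zero.1 ?_))))
    nlinarith [mul_le_mul_of_nonneg_right (hf (n * m) (by positivity)) (dist_nonneg (x := f (u a)) (y := f (u b)))]
  have fa : {n | 0 < n ∧ ∃ x ≠ o, minimalPeriod f x = n}.Finite := (fin.image (minimalPeriod f)).subset
    fun n ⟨n0, x, _, e⟩ => ⟨x, minimalPeriod_pos_iff_mem_periodicPts.1 (e ▸ n0), e⟩
  refine ⟨fa, Set.ext fun z => ⟨fun ⟨z1, z0⟩ => by_contra fun h => ?_, fun h => ?_⟩⟩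
  · obtain ⟨γ, g1, g0⟩ := ((hc.hasEigenvalue_iff_mem_spectrum z0).2 z1).exists_hasEigenvector
    have gk : ∀ k, (T ^ k) γ = z ^ k • γ := fun k => by
      induction k with
      | zero => simp
      | succ k i =>
        rw [pow_succ', mul_apply_eq_comp, i, map_smul, pow_succ, mul_smul]
        exact congrArg _ (Module.End.mem_eigenspace_iff.1 g1)
    obtain ⟨ψ, p0, p1⟩ : ∃ ψ : E →L[ℂ] ℂ, ψ γ ≠ 0 ∧ ∀ n ∈ {n | 0 < n ∧ ∃ x ≠ o, minimalPeriod f x = n},
        ∀ x, IsPeriodicPt f n x → ψ (δ x) = 0 := by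
      simp only [mem_iUnion₂, not_exists, mem_ofPred_eq (p := fun z : ℂ => _)] at h
      generalize {n | 0 < n ∧ ∃ x ≠ o, minimalPeriod f x = n} = A at h fa
      induction A, fa using Set.Finite.induction_on with
      | empty =>
        obtain ⟨ψ, -, k⟩ := exists_dual_vector ℂ γ (by simpa)
        exact ⟨ψ, by simpa [k], by simp⟩
      | @insert n A _ _ i =>
        obtain ⟨ψ, p0, p1⟩ := i fun m hm => h m (Or.inr hm)
        refine ⟨ψ ∘L (T ^ n - 1), by simpa [gk, ← sub_one_mul, p0, sub_eq_zero] using h n (Or.inl rfl), ?_⟩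
        rintro m (rfl | hm) x hx
        · simp [hk, hx.eq]
        simp [hk, p1 m hm x hx, p1 m hm _ (hx.apply_iterate n)]
    replace p1 : ∀ x ∈ periodicPts f, ψ (δ x) = 0 := fun x hx => (eq_or_ne x o).elim (fun e => by simp [e, δ0])
      fun e => p1 _ ⟨minimalPeriod_pos_of_mem_periodicPts hx, x, e, rfl⟩ x (isPeriodicPt_minimalPeriod f x)
    have z0 : 0 < ‖z‖ := norm_pos_iff.2 z0
    obtain ⟨η, η0, η1⟩ := exists_between (lt_min (show 0 < ‖z‖ / 4 by positivity) (show (0 : ℝ) < 2⁻¹ by norm_num))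
    obtain ⟨η1, η2⟩ := lt_min_iff.1 η1
    obtain ⟨r, r0, hr⟩ := flat η η0 η2.le
    have O : ∀ s, (fun k => ‖ψ (δ (f^[k] s))‖) =O[atTop] fun k => η ^ k := fun s => by
      obtain ⟨a, b, ab, e⟩ := tb (f^[·] s) (R + dist s o) (fun k => (hR k s).trans (by
        gcongr; exact mul_le_of_le_one_left dist_nonneg (pow_le_one₀ (by norm_num) (by norm_num)))) (r / 4) (by positivity)
      obtain ⟨p, rfl⟩ := Nat.exists_eq_add_of_lt ab
      rw [← iterate_succ_apply' f, ← iterate_succ_apply' f, show (a + p + 1).succ = p + 1 + a.succ by omega,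
        iterate_add_apply] at e
      have c : ∀ j, dist ((f^[p + 1])^[j] (f^[a.succ] s)) ((f^[p + 1])^[j + 1] (f^[a.succ] s)) ≤ r / 2 / 2 / 2 ^ j :=
        fun j => by
          rw [iterate_succ_apply (f^[p + 1]), ← iterate_mul]
          refine (hr _ _ _ (by linarith)).trans ?_
          rw [div_eq_inv_mul _ (2 ^ j), ← inv_pow]
          exact mul_le_mul ((pow_le_pow_of_le_one η0.le (by linarith) (by nlinarith)).trans
            (pow_le_pow_left₀ η0.le η2.le j)) (by linarith) dist_nonneg (by positivity)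
      obtain ⟨w, hw⟩ := cauchySeq_tendsto_of_complete (cauchySeq_of_le_geometric_two c)
      have w1 := dist_le_of_le_geometric_two_of_tendsto₀ c hw
      have w2 : IsPeriodicPt f (p + 1) w := isFixedPt_of_tendsto_iterate hw (hf.continuous.iterate _).continuousAt
      refine .of_bound (‖ψ‖ * r / η ^ a.succ) ((eventually_ge_atTop a.succ).mono fun k hk => ?_)
      obtain ⟨k, rfl⟩ := Nat.exists_eq_add_of_le' hk
      rw [norm_norm, iterate_add_apply, ← sub_zero (ψ _), ← p1 _ ⟨_, p.succ_pos, w2.apply_iterate k⟩, ← map_sub,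
        Real.norm_of_nonneg (by positivity), pow_add, mul_comm (η ^ k), ← mul_assoc, div_mul_cancel₀ _ (by positivity),
        mul_assoc, mul_comm r]
      refine (ψ.le_opNorm _).trans (mul_le_mul_of_nonneg_left ?_ (norm_nonneg _))
      rw [← dist_eq_norm, hi.dist_eq]
      exact (hr k _ _ (w1.trans_lt (by linarith))).trans (mul_le_mul_of_nonneg_left (w1.trans (by linarith)) (by positivity))
    obtain ⟨S, K, K0, h⟩ := ehr hd hc η0
    obtain ⟨C, C0, hC⟩ := bound_of_isBigO_nat_atTop ((IsBigO.sum fun s (_ : s ∈ S) => O s).const_mul_left K)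
    have b : ∀ k, ‖ψ ∘L T ^ k‖ ≤ (‖ψ‖ + C / η) * (2 * η) ^ k := fun k => by
      induction k with
      | zero => simpa [ContinuousLinearMap.one_def] using by positivity
      | succ k i =>
        have := h (ψ ∘L T ^ k)
        have e := (le_abs_self _).trans (hC (x := k) (by positivity))
        simp only [ContinuousLinearMap.comp_apply, hk] at this
        rw [Real.norm_of_nonneg (by positivity), Finset.sum_apply] at e
        have : C * η ^ k ≤ η * ((‖ψ‖ + C / η) * (2 * η) ^ k) := by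
          rw [← mul_assoc, mul_add, mul_div_cancel₀ _ η0.ne']
          gcongr
          · exact le_add_of_nonneg_left (by positivity)
          linarith
        rw [pow_succ T, pow_succ, ContinuousLinearMap.mul_def, ← ContinuousLinearMap.comp_assoc]
        nlinarith [mul_le_mul_of_nonneg_left i η0.le]
    refine p0 (norm_le_zero_iff.1 (ge_of_tendsto' (by simpa using (tendsto_pow_atTop_nhds_zero_of_lt_one
      (r := 2⁻¹) (by norm_num) (by norm_num)).const_mul ((‖ψ‖ + C / η) * ‖γ‖)) fun k => ?_))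
    have := ((ψ ∘L T ^ k).le_opNorm γ).trans (mul_le_mul_of_nonneg_right (b k) (norm_nonneg _))
    rw [ContinuousLinearMap.comp_apply, gk, map_smul, norm_smul, norm_pow] at this
    refine le_of_mul_le_mul_left (this.trans ?_) (pow_pos z0 k)
    rw [← inv_pow, mul_left_comm, ← mul_pow, mul_right_comm]
    exact mul_le_mul_of_nonneg_left (pow_le_pow_left₀ (by positivity) (by linarith) _) (by positivity)
  obtain ⟨n, ⟨n0, x, x0, rfl⟩, h⟩ := mem_iUnion₂.1 h
  have z0 : z ≠ 0 := fun e => by simp [e, n0.ne'] at h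
  refine ⟨(hc.hasEigenvalue_iff_mem_spectrum z0).1 (Module.End.hasEigenvalue_of_hasEigenvector
    (x := ∑ k ∈ Finset.range (minimalPeriod f x), z⁻¹ ^ k • δ (f^[k] x)) ⟨Module.End.mem_eigenspace_iff.2 ?_, ?_⟩), z0⟩
  · have := (Finset.sum_range_succ' (fun k => z⁻¹ ^ k • δ (f^[k] x)) _).symm.trans (Finset.sum_range_succ _ (minimalPeriod f x))
    rw [iterate_minimalPeriod, inv_pow z (minimalPeriod f x), h, inv_one, pow_zero, iterate_zero_apply, add_left_inj] at this
    rw [map_sum, ← this, Finset.smul_sum]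
    refine Finset.sum_congr rfl fun k _ => ?_
    rw [map_smul, smul_smul, pow_succ', mul_inv_cancel_left₀ z0, iterate_succ_apply', ← hT]
    rfl
  let N := insert o ((f^[·] x) '' Ioo 0 (minimalPeriod f x))
  obtain ⟨φ, -, hφ⟩ := hr (infDist · N) (lipschitz_infDist_pt N)
  have n : x ∉ N := fun k => k.elim x0 fun ⟨k, k1, k2⟩ => not_isPeriodicPt_of_pos_of_lt_minimalPeriod k1.1.ne' k1.2 k2
  refine fun e => (((((finite_Ioo _ _).image _).insert o).isClosed.notMem_iff_infDist_pos
    (insert_nonempty _ _)).1 n).ne' ?_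
  have := congrArg φ e
  have o0 : infDist o N = 0 := infDist_zero_of_mem (mem_insert o _)
  rw [map_sum, Finset.sum_eq_single_of_mem 0 (Finset.mem_range.2 n0) fun k k1 k2 => by
    simp [hφ, o0, infDist_zero_of_mem (show f^[k] x ∈ N from
      Or.inr ⟨k, ⟨Nat.pos_of_ne_zero k2, Finset.mem_range.1 k1⟩, rfl⟩)]] at this
  simpa [hφ, o0] using this

end Pool.Agent.Results.MP_e86906_an.Yes
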